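import Mathlib
import Pool.Agent.H31.Spec2

set_option autoImplicit false
open Matrix Finset

namespace Pool.Agent.Results.MP_cd2ba9_co.Counter

/-- The multicone graph: the join of K_w with m disjoint copies of C_n. -/
def multicone (w m n : ℕ) : SimpleGraph (Fin w ⊕ Fin m × Fin n) where
  Adj
    | .inl a, .inl b => a ≠ b
    | .inr a, .inr b => a.1 = b.1 ∧ (SimpleGraph.cycleGraph n).Adj a.2 b.2
    | _, _ => True
  symm := ⟨by rintro (a | a) (b | b) h; exacts [Ne.symm h, trivial, trivial, ⟨h.1.symm, h.2.symm⟩]⟩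
  loopless := ⟨by rintro (a | a) h; exacts [h rfl, h.2.ne rfl]⟩

open Classical in
/-- The adjacency spectrum: the multiset of roots of the characteristic polynomial. -/
noncomputable def spec {V : Type} [Fintype V] [DecidableEq V] (G : SimpleGraph V) : Multiset ℝ :=
  (G.adjMatrix ℝ).charpoly.roots

theorem spec_eq {V : Type} [Fintype V] [DecidableEq V] (G : SimpleGraph V) [DecidableRel G.Adj] :
    spec G = ((Int.castRingHom ℝ).mapMatrix (G.adjMatrix ℤ)).charpoly.roots := by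
  rw [spec]; congr 2; ext i j; by_cases h : G.Adj i j <;> simp [h]

instance (w m n : ℕ) : DecidableRel (multicone w m n).Adj := fun a b =>
  match a, b with
  | .inl a, .inl b => inferInstanceAs (Decidable (a ≠ b))
  | .inr a, .inr b => inferInstanceAs (Decidable (a.1 = b.1 ∧ _))
  | .inl _, .inr _ => isTrue trivial
  | .inr _, .inl _ => isTrue trivial

def E : List (Fin 8 × Fin 8) := [(2, 6), (3, 6), (4, 6), (5, 6), (0, 7), (1, 7), (4, 7), (5, 7), (6, 7)]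

def H : SimpleGraph (Fin 8) where
  Adj i j := (i, j) ∈ E ∨ (j, i) ∈ E
  symm := ⟨fun _ _ => Or.symm⟩
  loopless := ⟨by decide⟩

instance : DecidableRel H.Adj := fun i j => by unfold H; infer_instance

def P : Matrix (Fin 8) (Fin 8) ℤ :=
  !![1, 1, -1, 0, -1, -1, 0, -4;
     1, 1, 1, 0, -1, -1, 0, -4;
     1, -1, 0, -1, -1, -1, -1, 1;
     1, -1, 0, 1, -1, -1, -1, 1;
     2, 0, 0, 0, 2, -2, -1, -3;
     2, 0, 0, 0, 0, 4, -1, -3;
     3, -1, 0, 0, 0, 0, 2, -2;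
     3, 1, 0, 0, 0, 0, 0, 8]

def Q : Matrix (Fin 8) (Fin 8) ℤ :=
  !![0, 0, 1, 0, 0, 0, 0, 0;
     0, 0, 0, 1, 0, 0, 0, 0;
     1, -1, 0, 0, -1, -1, -1, 1;
     1, 1, 0, 0, 1, -1, -1, -1;
     1, -1, 0, 0, 0, 2, 0, -2;
     1, 1, 0, 0, -1, -1, 1, -1;
     1, -1, 0, 0, 1, -1, 1, 1;
     1, 1, 0, 0, 0, 2, 0, 2]

def e : Fin 2 ⊕ Fin 1 × Fin 6 → Fin 8
  | .inl a => ⟨a, by omega⟩
  | .inr a => ⟨a.2 + 2, by omega⟩

theorem result : ¬ ∀ w m n : ℕ, 1 ≤ w → 1 ≤ m → 3 ≤ n → ∀ (N : ℕ) (H : SimpleGraph (Fin N)),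
    spec H = spec (multicone w m n)ᶜ → Nonempty (H ≃g (multicone w m n)ᶜ) := by
  intro h
  obtain ⟨f⟩ := h 2 1 6 (by omega) (by omega) (by omega) 8 H (by
    rw [spec_eq, spec_eq, H31.Spec.roots_of_eig (P := P) (Q := Pᵀ) (w := ![30, 6, 2, 2, 8, 24, 8, 120])
      (d := ![3, 1, 0, 0, 0, 0, -2, -2]) (by decide) (by decide +kernel) (by decide +kernel),
      H31.Spec.roots_of_eig (P := Q.submatrix e e) (Q := Qᵀ.submatrix e e)
      (w := ![6, 6, 1, 1, 4, 12, 4, 12] ∘ e) (d := ![3, 1, 0, 0, 0, 0, -2, -2] ∘ e) (by decide) (by decide +kernel) (by decide +kernel)]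
    have : (univ.val.map ![3, 1, 0, 0, 0, 0, -2, -2] : Multiset ℤ) = univ.val.map (![3, 1, 0, 0, 0, 0, -2, -2] ∘ e) := by
      decide +kernel
    simpa only [Multiset.map_map, Function.comp_def] using congrArg (Multiset.map (Int.cast (R := ℝ))) this)
  obtain ⟨y, hy⟩ := (show ∀ x, ∃ y, H.Adj x y by decide) (f.symm (.inl 0))
  have := f.map_adj_iff.mpr hy
  rw [RelIso.apply_symm_apply] at this
  exact (show ∀ z, ¬ (multicone 2 1 6)ᶜ.Adj (.inl 0) z by decide) _ this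

end Pool.Agent.Results.MP_cd2ba9_co.Counter
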